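import Mathlib.LinearAlgebra.Span.Basic
import Mathlib.LinearAlgebra.Prod
import Mathlib.Algebra.Field.Rat
import Mathlib.Tactic.LinearCombination
import Mathlib.Tactic.Module

/-!
# Cycles on hypersurfaces: reduction to the critical dimension
-/

set_option autoImplicit false

namespace Pool.Agent.X308.Hs

/-- A class of hypersurfaces `X` with their Chow groups `A X i` (codimension `i`, rational
coefficients) and the classes `h X i` of the linear sections of codimension `i`. -/
structure Theory where
  /-- the hypersurfaces -/
  Hyp : Type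
  /-- the dimension -/
  dim : Hyp → ℕ
  /-- the Chow groups -/
  A : Hyp → ℕ → Type
  [grp : ∀ X i, AddCommGroup (A X i)]
  [mod : ∀ X i, Module ℚ (A X i)]
  /-- the class of a linear section -/
  h : ∀ X i, A X i

attribute [instance] Theory.grp Theory.mod

/-- The cycle class `z` is a rational multiple of the class of a linear section. -/
def IsMultiple (T : Theory) (X : T.Hyp) (i : ℕ) (z : T.A X i) : Prop := ∃ q : ℚ, z = q • T.h X i

/-- A general pencil of hyperplane sections of `X`: the members `fibre t` (`t` in the projective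
line `Base`), the geometric generic member `gen`, the Chow groups `B i` of the total space (the
blow-up of `X` along the base locus) and `G i` of the generic member, and the formal properties of
the Chow groups. -/
structure Pencil (T : Theory) (X : T.Hyp) where
  /-- the parameter space -/
  Base : Type
  /-- the members of the pencil -/
  fibre : Base → T.Hyp
  /-- the geometric generic member -/
  gen : T.Hyp
  dim_fibre : ∀ t, T.dim (fibre t) + 1 = T.dim X
  dim_gen : T.dim gen + 1 = T.dim X
  /-- the Chow groups of the total space -/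
  B : ℕ → Type
  [grpB : ∀ i, AddCommGroup (B i)]
  [modB : ∀ i, Module ℚ (B i)]
  /-- the Chow groups of the generic member -/
  G : ℕ → Type
  [grpG : ∀ i, AddCommGroup (G i)]
  [modG : ∀ i, Module ℚ (G i)]
  /-- pull-back to the total space -/
  pull : ∀ i, T.A X i →ₗ[ℚ] B i
  /-- push-forward from the total space -/
  push : ∀ i, B i →ₗ[ℚ] T.A X i
  push_pull : ∀ i z, push i (pull i z) = z
  /-- restriction to the generic member -/
  res : ∀ i, B i →ₗ[ℚ] G i
  /-- pull-back to the geometric generic member -/
  geom : ∀ i, G i →ₗ[ℚ] T.A gen i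
  geom_injective : ∀ i, Function.Injective (geom i)
  /-- push-forward from a member to the total space -/
  incl : ∀ t i, T.A (fibre t) i →ₗ[ℚ] B (i + 1)
  localization : ∀ i z, res (i + 1) z = 0 → z ∈ ⨆ t, LinearMap.range (incl t i)
  restrict_h : ∀ i, geom i (res i (pull i (T.h X i))) = T.h gen i
  push_h : ∀ t i, push (i + 1) (incl t i (T.h (fibre t) i)) = T.h X (i + 1)

attribute [instance] Pencil.grpB Pencil.modB Pencil.grpG Pencil.modG

/-- The restriction to the geometric generic member of the pencil. -/
def Pencil.restrict {T : Theory} {X : T.Hyp} (P : Pencil T X) (i : ℕ) :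
    T.A X i →ₗ[ℚ] T.A P.gen i := (P.geom i ∘ₗ P.res i) ∘ₗ P.pull i

/-- After the restriction to some generic linear section of codimension `k` the cycle class `z`
is a multiple of the class of a linear section. -/
def GenericMultiple (T : Theory) : ℕ → ∀ (X : T.Hyp) (i : ℕ), T.A X i → Prop
  | 0, X, i, z => IsMultiple T X i z
  | k + 1, X, i, z => ∃ P : Pencil T X, GenericMultiple T k P.gen i (P.restrict i z)

/-- Known facts: general pencils exist on the `X` of dimension at least three, and on these all
divisor classes are multiples of the hyperplane class. -/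
structure KnownFacts (T : Theory) : Prop where
  pencil : ∀ X, 3 ≤ T.dim X → Nonempty (Pencil T X)
  divisors : ∀ X, 3 ≤ T.dim X → ∀ z : T.A X 1, IsMultiple T X 1 z

/-- Hartshorne's question in codimension `i`. -/
def Hartshorne (T : Theory) (i : ℕ) : Prop :=
  ∀ X, 2 * i < T.dim X → ∀ z : T.A X i, IsMultiple T X i z

/-- In dimension `2 i + 1` the cycles of codimension `i` become multiples of the class of a linear
section after the restriction to some generic linear section of dimension `2 i - 1`. -/
def CriticalDimension (T : Theory) (i : ℕ) : Prop :=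
  ∀ X, T.dim X = 2 * i + 1 → ∀ z : T.A X i, GenericMultiple T 2 X i z

/-- The same in all dimensions greater than `2 i`. -/
def AllDimensions (T : Theory) (i : ℕ) : Prop :=
  ∀ X k, 2 ≤ k → T.dim X + 1 = 2 * i + k → ∀ z : T.A X i, GenericMultiple T k X i z

variable {T : Theory}

lemma restrict_h {X : T.Hyp} (P : Pencil T X) (i : ℕ) :
    P.restrict i (T.h X i) = T.h P.gen i := P.restrict_h i

/-- The basic step. -/
lemma step {X : T.Hyp} (P : Pencil T X) {i : ℕ}
    (hY : ∀ Y, T.dim Y + 1 = T.dim X → ∀ w : T.A Y i, IsMultiple T Y i w) {z : T.A X (i + 1)}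
    (hz : IsMultiple T P.gen (i + 1) (P.restrict (i + 1) z)) : IsMultiple T X (i + 1) z := by
  obtain ⟨q, hq⟩ := hz
  have h0 : P.restrict (i + 1) (z - q • T.h X (i + 1)) = 0 := by
    rw [map_sub, map_smul, restrict_h, hq, sub_self]
  have h1 : P.res (i + 1) (P.pull (i + 1) (z - q • T.h X (i + 1))) = 0 := by
    apply P.geom_injective
    rw [map_zero]
    exact h0
  have h2 := P.localization i _ h1
  have h3 : z - q • T.h X (i + 1) ∈ Submodule.span ℚ {T.h X (i + 1)} := by
    have h4 : P.push (i + 1) (P.pull (i + 1) (z - q • T.h X (i + 1))) ∈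
        (⨆ t, LinearMap.range (P.incl t i)).map (P.push (i + 1)) := Submodule.mem_map_of_mem h2
    rw [P.push_pull, Submodule.map_iSup] at h4
    refine (iSup_le fun t => ?_ : (⨆ t, (LinearMap.range (P.incl t i)).map (P.push (i + 1))) ≤
      Submodule.span ℚ {T.h X (i + 1)}) h4
    rintro _ ⟨_, ⟨w, rfl⟩, rfl⟩
    obtain ⟨c, rfl⟩ := hY _ (P.dim_fibre t) w
    rw [map_smul, map_smul, P.push_h]
    exact Submodule.smul_mem _ _ (Submodule.mem_span_singleton_self _)
  obtain ⟨c, hc⟩ := Submodule.mem_span_singleton.1 h3
  refine ⟨c + q, ?_⟩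
  rw [add_smul, hc, sub_add_cancel]

lemma isMultiple_of_generic {i : ℕ} (hC : Hartshorne T i) :
    ∀ (k : ℕ) (X : T.Hyp) (z : T.A X (i + 1)), T.dim X = 2 * i + 1 + k →
      GenericMultiple T k X (i + 1) z → IsMultiple T X (i + 1) z := by
  intro k
  induction k with
  | zero => intro X z _ h; exact h
  | succ k ih =>
    rintro X z hX ⟨P, hP⟩
    have hg := P.dim_gen
    refine step P (fun Y hY w => hC Y (by omega) w) ?_
    exact ih P.gen _ (by omega) hP

lemma generic_of_isMultiple (hK : KnownFacts T) {i : ℕ} :
    ∀ (k : ℕ) (X : T.Hyp) (z : T.A X i), k + 2 ≤ T.dim X → IsMultiple T X i z →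
      GenericMultiple T k X i z := by
  intro k
  induction k with
  | zero => intro X z _ h; exact h
  | succ k ih =>
    rintro X z hX ⟨q, rfl⟩
    obtain ⟨P⟩ := hK.pencil X (by omega)
    have hg := P.dim_gen
    refine ⟨P, ih P.gen _ (by omega) ⟨q, ?_⟩⟩
    rw [map_smul, restrict_h]

/-- The reduction in a fixed codimension `i + 1`, in the critical dimension. -/
theorem hartshorne_of_critical (hK : KnownFacts T) {i : ℕ} (hC : Hartshorne T i)
    (h : CriticalDimension T (i + 1)) : Hartshorne T (i + 1) := by
  have key : ∀ (m : ℕ) (X : T.Hyp), T.dim X = 2 * i + 3 + m → ∀ z : T.A X (i + 1),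
      IsMultiple T X (i + 1) z := by
    intro m
    induction m with
    | zero =>
      intro X hX z
      exact isMultiple_of_generic hC 2 X z (by omega) (h X (by omega) z)
    | succ m ih =>
      intro X hX z
      obtain ⟨P⟩ := hK.pencil X (by omega)
      have hg := P.dim_gen
      exact step P (fun Y hY w => hC Y (by omega) w) (ih P.gen (by omega) _)
  intro X hX z
  obtain ⟨m, hm⟩ := Nat.exists_eq_add_of_le (show 2 * i + 3 ≤ T.dim X by omega)
  exact key m X hm z

theorem allDimensions_of_hartshorne (hK : KnownFacts T) {i : ℕ} (hi : 2 ≤ i)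
    (h : Hartshorne T i) : AllDimensions T i := by
  intro X k hk hX z
  exact generic_of_isMultiple hK k X z (by omega) (h X (by omega) z)

theorem critical_of_allDimensions {i : ℕ} (h : AllDimensions T i) : CriticalDimension T i :=
  fun X hX z => h X 2 le_rfl (by omega) z

/-- The equivalences in the codimension `i + 1`. -/
theorem equivalences (hK : KnownFacts T) {i : ℕ} (hi : 1 ≤ i) (hC : Hartshorne T i) :
    (Hartshorne T (i + 1) ↔ CriticalDimension T (i + 1)) ∧
    (Hartshorne T (i + 1) ↔ AllDimensions T (i + 1)) := by
  have h1 : Hartshorne T (i + 1) → AllDimensions T (i + 1) :=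
    allDimensions_of_hartshorne hK (by omega)
  have h2 : CriticalDimension T (i + 1) → Hartshorne T (i + 1) := hartshorne_of_critical hK hC
  exact ⟨⟨fun h => critical_of_allDimensions (h1 h), h2⟩,
    ⟨h1, fun h => h2 (critical_of_allDimensions h)⟩⟩

theorem hartshorne_one (hK : KnownFacts T) : Hartshorne T 1 :=
  fun X hX z => hK.divisors X (by omega) z

/-- The equivalence in all codimensions at once. -/
theorem all_codimensions (hK : KnownFacts T) :
    (∀ i, 1 ≤ i → Hartshorne T i) ↔ ∀ i, 2 ≤ i → CriticalDimension T i := by
  constructor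
  · intro h i hi
    obtain ⟨j, rfl⟩ := Nat.exists_eq_add_of_le' (show 1 ≤ i by omega)
    exact (equivalences hK (by omega) (h j (by omega))).1.1 (h (j + 1) (by omega))
  · intro h i hi
    induction i, hi using Nat.le_induction with
    | base => exact hartshorne_one hK
    | succ j hj ih => exact (equivalences hK hj ih).1.2 (h (j + 1) (by omega))

end Pool.Agent.X308.Hs
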